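import Pool.Agent.K7.H40.NU.Store

set_option autoImplicit false

/-! The encoding lengths. -/

namespace Pool.Agent.K7.H40.NU

open Pool.Agent.NPC Pool.Agent.H558R2 Pool.Agent.H622R3.SM
open Pool.Agent.R533.GU Pool.Agent.R533.NG

/-- `v` is a rational number whose numerator and denominator have at most `h` binary digits. -/
def Sm (h : ℕ) (v : ℝ) : Prop :=
  ∃ q : ℚ, (q : ℝ) = v ∧ q.num.natAbs < 2 ^ h ∧ q.den < 2 ^ h

theorem sm_frac (h : ℕ) (a b : ℤ) (hb : b ≠ 0) (ha : a.natAbs < 2 ^ h) (hb' : b.natAbs < 2 ^ h) :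
    Sm h ((a : ℝ) / b) := by
  refine ⟨Rat.divInt a b, ?_, ?_, ?_⟩
  · rw [Rat.divInt_eq_div]
    push_cast
    rfl
  · rcases eq_or_ne a 0 with rfl | h0
    · simp only [Rat.zero_divInt, Rat.num_zero, Int.natAbs_zero]
      positivity
    · refine lt_of_le_of_lt (Nat.le_of_dvd (Int.natAbs_pos.mpr h0) ?_) ha
      exact Int.natAbs_dvd_natAbs.mpr (Rat.num_dvd a hb)
  · refine lt_of_le_of_lt (Nat.le_of_dvd (Int.natAbs_pos.mpr hb) ?_) hb'
    have h1 := Rat.den_dvd a b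
    exact Int.natCast_dvd.mp h1

theorem Sm.mono {h h' : ℕ} {v : ℝ} (hv : Sm h v) (hh : h ≤ h') : Sm h' v := by
  obtain ⟨q, h1, h2, h3⟩ := hv
  have h4 : 2 ^ h ≤ 2 ^ h' := Nat.pow_le_pow_right (by norm_num) hh
  exact ⟨q, h1, by omega, by omega⟩

theorem sm_zero : Sm 1 0 := ⟨0, by simp, by simp, by simp⟩

theorem sm_one : Sm 1 1 := ⟨1, by simp, by simp, by simp⟩

theorem sm_two : Sm 2 2 := by
  have := sm_frac 2 2 1 (by norm_num) (by decide) (by decide)
  norm_num at this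
  exact this

theorem sm_half : Sm 2 (1 / 2) := by
  have := sm_frac 2 1 2 (by norm_num) (by decide) (by decide)
  norm_num at this
  norm_num
  exact this

theorem lt_pow_mul {a b h h' : ℕ} (ha : a < 2 ^ h) (hb : b < 2 ^ h') : a * b < 2 ^ (h + h') := by
  rw [pow_add]
  exact Nat.mul_lt_mul'' ha hb

theorem Sm.add {h h' : ℕ} {v w : ℝ} (hv : Sm h v) (hw : Sm h' w) : Sm (h + h' + 1) (v + w) := by
  obtain ⟨q, rfl, h1, h2⟩ := hv
  obtain ⟨r, rfl, h3, h4⟩ := hw
  have hq : (q.den : ℝ) ≠ 0 := Nat.cast_ne_zero.mpr q.den_ne_zero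
  have hr : (r.den : ℝ) ≠ 0 := Nat.cast_ne_zero.mpr r.den_ne_zero
  have e : (q : ℝ) + r = ((q.num * r.den + r.num * q.den : ℤ) : ℝ) / ((q.den * r.den : ℤ) : ℝ) := by
    rw [Rat.cast_def, Rat.cast_def]
    push_cast
    field_simp
  rw [e]
  have h5 := lt_pow_mul h1 h4
  have h6 := lt_pow_mul h2 h3
  have h7 := lt_pow_mul h2 h4
  have h8 : 2 ^ (h + h' + 1) = 2 ^ (h + h') + 2 ^ (h + h') := by rw [pow_succ]; ring
  refine sm_frac _ _ _ ?_ ?_ ?_
  · exact mul_ne_zero (Nat.cast_ne_zero.mpr q.den_ne_zero) (Nat.cast_ne_zero.mpr r.den_ne_zero)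
  · refine lt_of_le_of_lt (Int.natAbs_add_le _ _) ?_
    rw [Int.natAbs_mul, Int.natAbs_mul, Int.natAbs_natCast, Int.natAbs_natCast]
    rw [Nat.mul_comm r.num.natAbs]
    omega
  · rw [Int.natAbs_mul, Int.natAbs_natCast, Int.natAbs_natCast]
    omega

theorem Sm.mul {h h' : ℕ} {v w : ℝ} (hv : Sm h v) (hw : Sm h' w) : Sm (h + h') (v * w) := by
  obtain ⟨q, rfl, h1, h2⟩ := hv
  obtain ⟨r, rfl, h3, h4⟩ := hw
  have hq : (q.den : ℝ) ≠ 0 := Nat.cast_ne_zero.mpr q.den_ne_zero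
  have hr : (r.den : ℝ) ≠ 0 := Nat.cast_ne_zero.mpr r.den_ne_zero
  have e : (q : ℝ) * r = ((q.num * r.num : ℤ) : ℝ) / ((q.den * r.den : ℤ) : ℝ) := by
    rw [Rat.cast_def, Rat.cast_def]
    push_cast
    field_simp
  rw [e]
  refine sm_frac _ _ _ ?_ ?_ ?_
  · exact mul_ne_zero (Nat.cast_ne_zero.mpr q.den_ne_zero) (Nat.cast_ne_zero.mpr r.den_ne_zero)
  · rw [Int.natAbs_mul]
    exact lt_pow_mul h1 h3
  · rw [Int.natAbs_mul, Int.natAbs_natCast, Int.natAbs_natCast]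
    exact lt_pow_mul h2 h4

theorem Sm.div {h h' : ℕ} {v w : ℝ} (hv : Sm h v) (hw : Sm h' w) (h0 : w ≠ 0) :
    Sm (h + h') (v / w) := by
  obtain ⟨q, rfl, h1, h2⟩ := hv
  obtain ⟨r, rfl, h3, h4⟩ := hw
  have hq : (q.den : ℝ) ≠ 0 := Nat.cast_ne_zero.mpr q.den_ne_zero
  have hr : (r.den : ℝ) ≠ 0 := Nat.cast_ne_zero.mpr r.den_ne_zero
  have hn : r.num ≠ 0 := by
    intro hh
    apply h0
    rw [Rat.num_eq_zero.mp hh]
    simp
  have hn' : (r.num : ℝ) ≠ 0 := Int.cast_ne_zero.mpr hn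
  have e : (q : ℝ) / r = ((q.num * r.den : ℤ) : ℝ) / ((q.den * r.num : ℤ) : ℝ) := by
    rw [Rat.cast_def, Rat.cast_def]
    push_cast
    field_simp
  rw [e]
  refine sm_frac _ _ _ ?_ ?_ ?_
  · exact mul_ne_zero (Nat.cast_ne_zero.mpr q.den_ne_zero) hn
  · rw [Int.natAbs_mul, Int.natAbs_natCast]
    exact lt_pow_mul h1 h4
  · rw [Int.natAbs_mul, Int.natAbs_natCast]
    exact lt_pow_mul h2 h3

theorem Sm.neg {h : ℕ} {v : ℝ} (hv : Sm h v) : Sm h (-v) := by
  obtain ⟨q, rfl, h1, h2⟩ := hv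
  exact ⟨-q, by push_cast; rfl, by rw [Rat.num_neg_eq_neg_num, Int.natAbs_neg]; exact h1,
    by rw [Rat.den_neg_eq_den]; exact h2⟩

theorem Sm.bit {h : ℕ} {v : ℝ} (hv : Sm h v) : ∃ q : ℚ, (q : ℝ) = v ∧ bitLength q ≤ 1 + 2 * h := by
  obtain ⟨q, h1, h2, h3⟩ := hv
  refine ⟨q, h1, ?_⟩
  have h4 := Nat.size_le.mpr h2
  have h5 := Nat.size_le.mpr h3
  unfold bitLength
  omega

/-! ### The numbers computed by the program -/

/-- The bound. -/
def hgt (k m n L : ℕ) : ℕ := 10 * (bigT k m n + 1) + 10 + m * (n + 1) * (2 * L + 1) + 5 * L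

variable {k m n : ℕ} (A : Matrix (Fin m) (Fin n) ℝ) (b : Fin m → ℝ)

theorem sm_ssum {L : ℕ} (hA : ∀ i j, Sm L (ext A b i j)) (t : ℕ) :
    Sm (1 + t * (2 * L + 1)) (ssum A b t) := by
  induction t with
  | zero => simpa [ssum] using sm_one
  | succ t ih =>
    rw [ssum]
    refine (ih.add ((hA _ _).mul (hA _ _))).mono ?_
    have e : (t + 1) * (2 * L + 1) = t * (2 * L + 1) + (2 * L + 1) := by ring
    omega

theorem sm_pow (t : ℕ) : Sm (1 + 2 * t) ((1 / 2) ^ t) := by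
  induction t with
  | zero => simpa using sm_one
  | succ t ih =>
    rw [pow_succ]
    exact (ih.mul sm_half).mono (by omega)

theorem sm_theta {L : ℕ} (hA : ∀ i j, Sm L (ext A b i j)) :
    Sm (2 * (bigT k m n + 1) + 2 + m * (n + 1) * (2 * L + 1)) (theta k A b) := by
  have h0 := one_le_ssum A b (m * (n + 1))
  unfold theta
  exact ((sm_pow _).div (sm_ssum A b hA _) (by linarith)).mono (by omega)

theorem sm_mid (k m n : ℕ) : Sm (2 * (bigT k m n + 1) + 3) (mid k m n) := by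
  unfold mid
  exact (sm_one.add (sm_pow _)).mono (by omega)

theorem sm_sum {L : ℕ} (hA : ∀ i j, Sm L (ext A b i j)) (i j : ℕ) :
    Sm (hgt k m n L) (mid k m n + theta k A b * ext A b i j) := by
  unfold hgt
  exact ((sm_mid k m n).add ((sm_theta A b hA).mul (hA i j))).mono (by omega)

theorem sm_newD {L : ℕ} (hA : ∀ i j, Sm L (ext A b i j)) (R c : ℕ) :
    Sm (hgt k m n L) (newD k A b R c) := by
  unfold newD
  split_ifs with h
  · exact sm_sum A b hA _ _
  · unfold hgt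
    exact (sm_mid k m n).mono (by omega)

theorem sm_newA {L : ℕ} (hA : ∀ i j, Sm L (ext A b i j)) (I J : Fin (bigN k m n)) :
    Sm (hgt k m n L) (newA k A b I J) := by
  rw [newA_eq]
  unfold R533.GU.val
  have h1 : 1 ≤ hgt k m n L := by unfold hgt; omega
  split_ifs
  · exact sm_one.mono h1
  · exact (sm_one.neg).mono h1
  · exact sm_newD A b hA _ _
  · exact sm_zero.mono h1

theorem sm_newB (L : ℕ) (I : Fin (bigN k m n)) : Sm (hgt k m n L) (newB k m n I) := by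
  have h1 : 1 ≤ hgt k m n L := by unfold hgt; omega
  rw [newB_eq]
  split_ifs
  · exact sm_one.mono h1
  · exact sm_zero.mono h1

theorem sm_vals {L : ℕ} (hA : ∀ i j, Sm L (ext A b i j)) :
    ∀ v ∈ vals k A b, Sm (hgt k m n L) v := by
  have h1 : 2 ≤ hgt k m n L := by unfold hgt; omega
  intro v hv
  unfold vals at hv
  rw [List.mem_append, List.mem_append] at hv
  rcases hv with hv | hv | hv
  · obtain ⟨I, hI, rfl⟩ := List.mem_map.mp hv
    simp only [part1, ph1, ph2, ph3, ph5, ph7, ph8, List.mem_append, List.mem_map,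
      List.mem_singleton, List.mem_range] at hI
    rcases hI with ⟨t, -, rfl⟩ | ⟨t, -, rfl⟩ | rfl | ⟨t, ht, rfl⟩ | rfl | rfl | rfl |
      ⟨t, ht, rfl⟩ | rfl | rfl | ⟨t, -, rfl⟩ | ⟨t, -, rfl⟩
    · exact (hA _ _).mono (by unfold hgt; omega)
    · exact ((hA _ _).mul (hA _ _)).mono (by unfold hgt; omega)
    · exact (sm_ssum A b hA 0).mono (by unfold hgt; omega)
    · refine (sm_ssum A b hA (t + 1)).mono ?_
      have h2 : (t + 1) * (2 * L + 1) ≤ m * (n + 1) * (2 * L + 1) := Nat.mul_le_mul_right _ ht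
      unfold hgt
      omega
    · exact sm_two.mono h1
    · exact sm_half.mono h1
    · exact (sm_pow 0).mono (by unfold hgt; omega)
    · exact (sm_pow (t + 1)).mono (by unfold hgt; omega)
    · exact (sm_theta A b hA).mono (by unfold hgt; omega)
    · exact (sm_mid k m n).mono (by unfold hgt; omega)
    · exact ((sm_theta A b hA).mul (hA _ _)).mono (by unfold hgt; omega)
    · exact sm_sum A b hA _ _
  · obtain ⟨I, hI, rfl⟩ := List.mem_map.mp hv
    have h2 := (part2_dst (k := k) (m := m) (n := n) I.dst).mp (List.mem_map.mpr ⟨I, hI, rfl⟩)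
    rcases h2 with ⟨I', J', hI', hJ', h3⟩ | ⟨I', hI', h3⟩
    · rw [h3]
      change Sm _ (if h : I' < bigN k m n ∧ J' < bigN k m n then newA k A b ⟨I', h.1⟩ ⟨J', h.2⟩
        else 0)
      rw [dif_pos ⟨hI', hJ'⟩]
      exact sm_newA A b hA _ _
    · rw [h3]
      change Sm _ (if h : I' < bigN k m n then newB k m n ⟨I', h⟩ else 0)
      rw [dif_pos hI']
      exact sm_newB L _
  · obtain ⟨I, hI, rfl⟩ := List.mem_map.mp hv
    exact sm_zero.mono (by omega)

/-! ### Rational instances -/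

theorem two_le_bitLength (q : ℚ) : 2 ≤ bitLength q := by
  have : 0 < Nat.size q.den := Nat.size_pos.mpr q.den_pos
  unfold bitLength
  omega

theorem add_le_inputLength (hm : 1 ≤ m) (A' : Matrix (Fin m) (Fin n) ℚ) (b' : Fin m → ℚ) :
    m + n ≤ inputLength A' b' := by
  have h1 : ∑ i : Fin m, ∑ j : Fin n, 2 ≤ ∑ i, ∑ j, bitLength (A' i j) :=
    Finset.sum_le_sum fun i _ => Finset.sum_le_sum fun j _ => two_le_bitLength _
  have h2 : ∑ i : Fin m, 2 ≤ ∑ i, bitLength (b' i) :=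
    Finset.sum_le_sum fun i _ => two_le_bitLength _
  simp only [Finset.sum_const, Finset.card_univ, Fintype.card_fin, smul_eq_mul] at h1 h2
  unfold inputLength
  nlinarith [Nat.mul_le_mul_right (n * 2) hm]

theorem sm_of_bitLength {q : ℚ} {L : ℕ} (h : bitLength q ≤ L) : Sm L (q : ℝ) := by
  unfold bitLength at h
  refine ⟨q, rfl, ?_, ?_⟩
  · exact Nat.size_le.mp (by omega)
  · exact Nat.size_le.mp (by omega)

theorem sm_ext (hm : 1 ≤ m) (hn : 1 ≤ n) (A' : Matrix (Fin m) (Fin n) ℚ) (b' : Fin m → ℚ)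
    (hA : ∀ i j, ((A' i j : ℚ) : ℝ) = A i j) (hb : ∀ i, ((b' i : ℚ) : ℝ) = b i) (i j : ℕ) :
    Sm (inputLength A' b') (ext A b i j) := by
  have hL := add_le_inputLength hm A' b'
  have h0 : Sm (inputLength A' b') 0 := sm_zero.mono (by omega)
  unfold ext
  split_ifs with h1 h2 h3
  · rw [← hA]
    refine sm_of_bitLength ?_
    have e1 : bitLength (A' ⟨i, h1⟩ ⟨j, h2⟩) ≤ ∑ j', bitLength (A' ⟨i, h1⟩ j') :=
      Finset.single_le_sum (f := fun j' => bitLength (A' ⟨i, h1⟩ j')) (fun _ _ => Nat.zero_le _)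
        (Finset.mem_univ _)
    have e2 : ∑ j', bitLength (A' ⟨i, h1⟩ j') ≤ ∑ i', ∑ j', bitLength (A' i' j') :=
      Finset.single_le_sum (f := fun i' => ∑ j', bitLength (A' i' j'))
        (fun _ _ => Nat.zero_le _) (Finset.mem_univ _)
    unfold inputLength
    omega
  · rw [← hb]
    refine (sm_of_bitLength ?_).neg
    have e1 : bitLength (b' ⟨i, h1⟩) ≤ ∑ i', bitLength (b' i') :=
      Finset.single_le_sum (f := fun i' => bitLength (b' i')) (fun _ _ => Nat.zero_le _)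
        (Finset.mem_univ _)
    unfold inputLength
    omega
  · exact h0
  · exact h0

/-- The new instance is rational, of small encoding length. -/
theorem new_rat {L : ℕ} (hA : ∀ i j, Sm L (ext A b i j)) :
    ∃ (A'' : Matrix (Fin (bigN k m n)) (Fin (bigN k m n)) ℚ) (b'' : Fin (bigN k m n) → ℚ),
      (∀ i j, ((A'' i j : ℚ) : ℝ) = newA k A b i j) ∧
      (∀ i, ((b'' i : ℚ) : ℝ) = newB k m n i) ∧
      inputLength A'' b'' ≤
        (bigN k m n * bigN k m n + bigN k m n) * (1 + 2 * hgt k m n L) := by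
  choose A'' h1 h2 using fun i j => (sm_newA (k := k) A b hA i j).bit
  choose b'' h3 h4 using fun i => (sm_newB (k := k) (m := m) (n := n) L i).bit
  refine ⟨A'', b'', h1, h3, ?_⟩
  have e1 : ∑ i, ∑ j, bitLength (A'' i j) ≤ ∑ i : Fin (bigN k m n), ∑ j : Fin (bigN k m n),
      (1 + 2 * hgt k m n L) := Finset.sum_le_sum fun i _ => Finset.sum_le_sum fun j _ => h2 i j
  have e2 : ∑ i, bitLength (b'' i) ≤ ∑ i : Fin (bigN k m n), (1 + 2 * hgt k m n L) :=
    Finset.sum_le_sum fun i _ => h4 i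
  simp only [Finset.sum_const, Finset.card_univ, Fintype.card_fin, smul_eq_mul] at e1 e2
  unfold inputLength
  rw [add_mul, mul_assoc]
  omega

end Pool.Agent.K7.H40.NU
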