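import Pool.Agent.K7.H40.NU.Store

set_option autoImplicit false

/-! The program is computed in polynomial time. -/

namespace Pool.Agent.K7.H40.NU

open Pool.Agent.NPC Pool.Agent.NPC.ER Pool.Agent.NPC.H612 Pool.Agent.H558R2 Pool.Agent.H622R3.SM
open Pool.Agent.R533.GU Pool.Agent.R533.NG

variable {α : Type} [TEnc α]

attribute [local fun_prop] TPM.pInstr

theorem u_size {u v : α → ℕ} (hu : UPoly u) (hv : UPoly v) : UPoly (fun a => size (u a) (v a)) := by
  unfold size wid
  exact UPoly.mul (UPoly.mul (UPoly.const 6) (UPoly.add hu (UPoly.const 2)))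
    (UPoly.mul (UPoly.const 6) (UPoly.add hv (UPoly.const 2)))

theorem u_pow {u : α → ℕ} (hu : UPoly u) (k : ℕ) : UPoly (fun a => u a ^ k) := by
  have h := UPoly.eval hu ((Polynomial.X : Polynomial ℕ) ^ k)
  simpa using h

theorem u_bigN {u v : α → ℕ} (hu : UPoly u) (hv : UPoly v) (k : ℕ) :
    UPoly (fun a => bigN k (u a) (v a)) := by
  unfold bigN
  exact u_pow (u_size hu hv) _

theorem u_bigT {u v : α → ℕ} (hu : UPoly u) (hv : UPoly v) (k : ℕ) :
    UPoly (fun a => bigT k (u a) (v a)) := by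
  unfold bigT
  exact u_pow (UPoly.add (u_bigN hu hv k) (u_bigN hu hv k)) _

theorem u_mn {u v : α → ℕ} (hu : UPoly u) (hv : UPoly v) :
    UPoly (fun a => u a * (v a + 1)) :=
  UPoly.mul hu (UPoly.add hv (UPoly.const 1))

theorem p_tab {f : α → ℕ} (hf : Poly f) : Poly (fun a => tab (f a)) := by
  unfold tab
  fun_prop

theorem p_typ {u v R c : α → ℕ} (hu : Poly u) (hv : Poly v) (hR : Poly R) (hc : Poly c) :
    Poly (fun a => typ (u a) (v a) (R a) (c a)) := by
  unfold typ
  fun_prop

theorem p_kin {u v x y : α → ℕ} (hu : Poly u) (hv : Poly v) (hx : Poly x) (hy : Poly y) :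
    Poly (fun a => kin (u a) (v a) (x a) (y a)) := by
  unfold kin
  refine p_tab ?_
  have h1 : Poly (fun a => typ (u a) (v a) (y a / 6) (x a / 6)) :=
    p_typ hu hv (by fun_prop) (by fun_prop)
  fun_prop

theorem p_sel {u v x y x' y' : α → ℕ} (hu : Poly u) (hv : Poly v) (hx : Poly x) (hy : Poly y)
    (hx' : Poly x') (hy' : Poly y') :
    Poly (fun a => sel (u a) (v a) (x a) (y a) (x' a) (y' a)) := by
  unfold sel
  have h1 := p_kin hu hv hx hy
  fun_prop

theorem p_wid {v : α → ℕ} (hv : Poly v) : Poly (fun a => wid (v a)) := by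
  unfold wid
  fun_prop

theorem p_posC {v i : α → ℕ} (hv : Poly v) (hi : Poly i) : Poly (fun a => posC (v a) (i a)) := by
  unfold posC
  have := p_wid hv
  fun_prop

theorem p_posV {v i : α → ℕ} (hv : Poly v) (hi : Poly i) : Poly (fun a => posV (v a) (i a)) := by
  unfold posV
  have := p_wid hv
  fun_prop

theorem p_ecode {u v I J : α → ℕ} (hu : Poly u) (hv : Poly v) (hI : Poly I) (hJ : Poly J) :
    Poly (fun a => ecode (u a) (v a) (I a) (J a)) := by
  unfold ecode
  have h1 : Poly (fun a => size (u a) (v a)) := by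
    unfold size
    have := p_wid hv
    fun_prop
  have h2 := p_posC hv hI
  have h3 := p_posV hv hJ
  have h4 : Poly (fun a => sel (u a) (v a) (posC (v a) (I a)).1 (posC (v a) (I a)).2
      (posV (v a) (J a)).1 (posV (v a) (J a)).2) :=
    p_sel hu hv (Poly.fst h2) (Poly.snd h2) (Poly.fst h3) (Poly.snd h3)
  fun_prop

theorem p_dreg {u v R c : α → ℕ} (hu : Poly u) (hv : Poly v) (hR : Poly R) (hc : Poly c) :
    Poly (fun a => dreg (u a) (v a) (R a) (c a)) := by
  unfold dreg
  fun_prop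

theorem p_entI {u v I J : α → ℕ} (hu : Poly u) (hv : Poly v) (hI : Poly I) (hJ : Poly J) :
    Poly (fun a => entI (u a) (v a) (I a) (J a)) := by
  have h1 := p_ecode hu hv hI hJ
  have h2 := p_posC hv hI
  have h3 : Poly (fun a => dreg (u a) (v a) ((posC (v a) (I a)).2 / 6)
      ((posC (v a) (I a)).1 / 6)) :=
    p_dreg hu hv (Poly.div (Poly.snd h2) (NPC.Poly.const 6))
      (Poly.div (Poly.fst h2) (NPC.Poly.const 6))
  have h4 : Poly (fun a => if ecode (u a) (v a) (I a) (J a) = 1 then ([2] : Reg) else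
      if ecode (u a) (v a) (I a) (J a) = 3 then
        dreg (u a) (v a) ((posC (v a) (I a)).2 / 6) ((posC (v a) (I a)).1 / 6) else [3]) := by
    fun_prop
  have h5 : Poly (fun a => if ecode (u a) (v a) (I a) (J a) = 2 then
      Instr.mk Op.sub [0, I a, J a] (if ecode (u a) (v a) (I a) (J a) = 1 then ([2] : Reg) else
      if ecode (u a) (v a) (I a) (J a) = 3 then
        dreg (u a) (v a) ((posC (v a) (I a)).2 / 6) ((posC (v a) (I a)).1 / 6) else [3]) [2]
      else Instr.mk Op.add [0, I a, J a] (if ecode (u a) (v a) (I a) (J a) = 1 then ([2] : Reg)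
      else if ecode (u a) (v a) (I a) (J a) = 3 then
        dreg (u a) (v a) ((posC (v a) (I a)).2 / 6) ((posC (v a) (I a)).1 / 6) else [3]) [3]) :=
    Poly.ite (by fun_prop) (TPM.pInstr _ (by fun_prop) h4 (by fun_prop))
      (TPM.pInstr _ (by fun_prop) h4 (by fun_prop))
  refine h5.congr fun a => ?_
  unfold entI
  split_ifs <;> rfl

theorem p_ph1 {u v : α → ℕ} (hu : UPoly u) (hv : UPoly v) : Poly (fun a => ph1 (u a) (v a)) := by
  have h1 := (u_mn hu hv).range
  have h2 := hv.toPoly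
  unfold ph1
  refine NPC.Poly.map h1 ?_
  have h3 : Poly (fun p : α × ℕ => if p.2 % (v p.1 + 1) < v p.1 then
      Instr.mk Op.add [4, p.2] [0, p.2 / (v p.1 + 1), p.2 % (v p.1 + 1)] [3] else
      Instr.mk Op.sub [4, p.2] [3] [1, p.2 / (v p.1 + 1)]) := by
    have h4 : Poly (fun p : α × ℕ => v p.1) := h2.comp (Poly.fst Poly.id)
    fun_prop
  refine h3.congr fun p => ?_
  split_ifs <;> rfl

theorem p_ph2 {u v : α → ℕ} (hu : UPoly u) (hv : UPoly v) : Poly (fun a => ph2 (u a) (v a)) := by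
  have h1 := (u_mn hu hv).range
  unfold ph2
  exact NPC.Poly.map h1 (by fun_prop)

theorem p_ph3 {u v : α → ℕ} (hu : UPoly u) (hv : UPoly v) : Poly (fun a => ph3 (u a) (v a)) := by
  have h1 := (u_mn hu hv).range
  unfold ph3
  exact NPC.Poly.map h1 (by fun_prop)

theorem p_ph5 {u : α → ℕ} (hu : UPoly u) : Poly (fun a => ph5 (u a)) := by
  have h1 := (UPoly.add hu (UPoly.const 1)).range
  unfold ph5
  exact NPC.Poly.map h1 (by fun_prop)

theorem p_ph7 {u v : α → ℕ} (hu : UPoly u) (hv : UPoly v) : Poly (fun a => ph7 (u a) (v a)) := by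
  have h1 := (u_mn hu hv).range
  unfold ph7
  exact NPC.Poly.map h1 (by fun_prop)

theorem p_ph8 {u v : α → ℕ} (hu : UPoly u) (hv : UPoly v) : Poly (fun a => ph8 (u a) (v a)) := by
  have h1 := (u_mn hu hv).range
  unfold ph8
  exact NPC.Poly.map h1 (by fun_prop)

theorem p_part1 (k : ℕ) {u v : α → ℕ} (hu : UPoly u) (hv : UPoly v) :
    Poly (fun a => part1 k (u a) (v a)) := by
  have h1 := p_ph1 hu hv
  have h2 := p_ph2 hu hv
  have h3 := p_ph3 hu hv
  have h5 := p_ph5 (u_bigT hu hv k)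
  have h7 := p_ph7 hu hv
  have h8 := p_ph8 hu hv
  have hT := (u_bigT hu hv k).toPoly
  have hM := (u_mn hu hv).toPoly
  unfold part1
  fun_prop

theorem p_part2a {u v w : α → ℕ} (hu : UPoly u) (hv : UPoly v) (hw : UPoly w) :
    Poly (fun a => part2a (u a) (v a) (w a)) := by
  have h1 := (UPoly.mul hw hw).range
  unfold part2a
  refine NPC.Poly.map h1 ?_
  have h2 : Poly (fun p : α × ℕ => w p.1) := hw.toPoly.comp (Poly.fst Poly.id)
  exact p_entI (hu.toPoly.comp (Poly.fst Poly.id)) (hv.toPoly.comp (Poly.fst Poly.id))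
    (Poly.div (Poly.snd Poly.id) h2) (Poly.mod (Poly.snd Poly.id) h2)

theorem p_part2b {v w : α → ℕ} (hv : UPoly v) (hw : UPoly w) :
    Poly (fun a => part2b (v a) (w a)) := by
  have h1 := hw.range
  unfold part2b
  refine NPC.Poly.map h1 ?_
  have h2 : Poly (fun p : α × ℕ => v p.1) := hv.toPoly.comp (Poly.fst Poly.id)
  have h3' : Poly (fun x : ℕ => R533.GU.top x) := by
    unfold R533.GU.top wid
    fun_prop
  have h3 : Poly (fun p : α × ℕ => R533.GU.top (v p.1)) := h3'.comp h2
  have h4 : Poly (fun p : α × ℕ => if p.2 = R533.GU.top (v p.1) then ([2] : Reg) else [3]) :=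
    Poly.ite (Poly.decide_eq (Poly.snd Poly.id) h3) (NPC.Poly.const _) (NPC.Poly.const _)
  exact TPM.pInstr _ (by fun_prop) h4 (by fun_prop)

theorem p_dst : Poly (fun I : Instr => I.dst) := by
  have h : Poly (fun x : ℕ × Reg × Reg × Reg => x.2.1) := by fun_prop
  obtain ⟨c, p, hc⟩ := h
  exact ⟨c, p, fun I => hc I.code⟩

theorem p_part3 (k : ℕ) {u v : α → ℕ} (hu : UPoly u) (hv : UPoly v) :
    Poly (fun a => part3 k (u a) (v a)) := by
  unfold part3
  refine NPC.Poly.map (p_part1 k hu hv) ?_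
  exact TPM.pInstr _ (p_dst.comp (Poly.snd Poly.id)) (by fun_prop) (by fun_prop)

theorem p_prog (k : ℕ) {u v : α → ℕ} (hu : UPoly u) (hv : UPoly v) :
    Poly (fun a => prog k (u a) (v a)) := by
  have h1 := p_part1 k hu hv
  have h2 := p_part2a hu hv (u_bigN hu hv k)
  have h3 := p_part2b hv (u_bigN hu hv k)
  have h4 := p_part3 k hu hv
  unfold prog
  fun_prop

theorem prog_computed (k : ℕ) :
    Computed (fun p : List Unit × List Unit => prog k p.1.length p.2.length) :=
  t_COMP _ _ _ (p_prog k (UPoly.length (Poly.fst Poly.id)) (UPoly.length (Poly.snd Poly.id)))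

/-- The composed algorithm. -/
def comb (k : ℕ) (α : Alg) : Alg := fun m n h =>
  ((if h = [] then prog k m n else []) ++ (α (bigN k m n) (bigN k m n) h).1,
    (α (bigN k m n) (bigN k m n) h).2)

theorem comb_poly (k : ℕ) (α : Alg) (hα : PolyControl α) : PolyControl (comb k α) := by
  have h1 : Poly (fun q : HistIn => α q.1.1.length q.1.2.length q.2) := t_COMP2 _ _ _ hα
  have hN : UPoly (fun p : HistIn => bigN k p.1.1.length p.1.2.length) :=
    u_bigN TUP.u_m TUP.u_n k
  have h2 : Poly (fun p : HistIn => (((List.replicate (bigN k p.1.1.length p.1.2.length) (),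
      List.replicate (bigN k p.1.1.length p.1.2.length) ()), p.2) : HistIn)) :=
    Poly.pair (Poly.pair hN hN) (Poly.snd Poly.id)
  have h3 : Poly (fun p : HistIn => α (bigN k p.1.1.length p.1.2.length)
      (bigN k p.1.1.length p.1.2.length) p.2) := (h1.comp h2).congr fun p => by
    simp only [List.length_replicate]
  have h4 : Poly (fun p : HistIn => prog k p.1.1.length p.1.2.length) :=
    p_prog k TUP.u_m TUP.u_n
  refine t_COMP _ _ _ ?_
  unfold comb
  exact Poly.pair (Poly.append (Poly.ite (by fun_prop) h4 (NPC.Poly.const _)) (Poly.fst h3))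
    (Poly.snd h3)

end Pool.Agent.K7.H40.NU
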