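import Pool.Agent.H622R3.SM.All2

set_option autoImplicit false

/-! Execution of straight-line programs, and composition of a program with an algorithm. -/

namespace Pool.Agent.K7.H40.NU

open Pool.Agent.NPC Pool.Agent.H558R2 Pool.Agent.H622R3.SM

/-- The instruction `I` is right for the values `W`, if the registers in `D` are right. -/
def IGood (W : Reg → ℝ) (D : Set Reg) (I : Instr) : Prop :=
  I.fst ∈ D ∧ I.snd ∈ D ∧ W I.dst = I.op.eval (W I.fst) (W I.snd) ∧
    (I.op = Op.div → W I.snd ≠ 0)

/-- The program `P` is right for the values `W`, if the registers in `D` are right before. -/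
def Good (W : Reg → ℝ) : List Instr → Set Reg → Prop
  | [], _ => True
  | I :: P, D => IGood W D I ∧ Good W P (insert I.dst D)

theorem exec_good (W : Reg → ℝ) (P : List Instr) : ∀ (D : Set Reg) (ρ : Reg → ℝ),
    (∀ r ∈ D, ρ r = W r) → Good W P D →
    exec P ρ = some (fun r => if r ∈ P.map Instr.dst then W r else ρ r,
      P.map fun I => W I.dst) := by
  induction P with
  | nil => intro D ρ _ _; simp [exec]
  | cons I P ih =>
    intro D ρ hD hG
    obtain ⟨⟨h1, h2, h3, h4⟩, h5⟩ := hG
    rw [exec, hD _ h1, hD _ h2, ← h3]
    rw [if_neg (fun h => h4 h.1 h.2)]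
    rw [ih (insert I.dst D) (Function.update ρ I.dst (W I.dst)) ?_ h5]
    · simp only [Option.map_some, List.map_cons, List.mem_cons, Option.some.injEq, Prod.mk.injEq,
        and_true]
      funext r
      by_cases hr : r ∈ P.map Instr.dst
      · rw [if_pos hr, if_pos (Or.inr hr)]
      · rw [if_neg hr]
        by_cases hr2 : r = I.dst
        · rw [if_pos (Or.inl hr2), hr2, Function.update_self]
        · rw [if_neg (by rintro (h | h); exacts [hr2 h, hr h]), Function.update_of_ne hr2]
    · intro r hr
      by_cases hr2 : r = I.dst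
      · rw [hr2, Function.update_self]
      · rw [Function.update_of_ne hr2]
        rcases hr with h | h
        · exact absurd h hr2
        · exact hD r h

theorem IGood.mono {W : Reg → ℝ} {D D' : Set Reg} {I : Instr} (h : IGood W D I) (hD : D ⊆ D') :
    IGood W D' I := ⟨hD h.1, hD h.2.1, h.2.2⟩

theorem good_append {W : Reg → ℝ} {P Q : List Instr} : ∀ {D : Set Reg}, Good W P D →
    Good W Q (D ∪ {r | ∃ I ∈ P, I.dst = r}) → Good W (P ++ Q) D := by
  induction P with
  | nil => intro D _ h; simpa using h
  | cons I P ih =>
    intro D h1 h2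
    refine ⟨h1.1, ih h1.2 ?_⟩
    have e : insert I.dst D ∪ {r | ∃ J ∈ P, J.dst = r} = D ∪ {r | ∃ J ∈ I :: P, J.dst = r} := by
      ext r
      simp only [Set.mem_union, Set.mem_insert_iff, Set.mem_ofPred_eq, List.mem_cons]
      constructor
      · rintro ((rfl | h) | ⟨J, hJ, rfl⟩)
        · exact Or.inr ⟨I, Or.inl rfl, rfl⟩
        · exact Or.inl h
        · exact Or.inr ⟨J, Or.inr hJ, rfl⟩
      · rintro (h | ⟨J, (rfl | hJ), rfl⟩)
        · exact Or.inl (Or.inr h)
        · exact Or.inl (Or.inl rfl)
        · exact Or.inr ⟨J, hJ, rfl⟩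
    rw [e]
    exact h2

theorem good_par {W : Reg → ℝ} {P : List Instr} : ∀ {D : Set Reg}, (∀ I ∈ P, IGood W D I) →
    Good W P D := by
  induction P with
  | nil => intro D _; trivial
  | cons I P ih =>
    intro D h
    exact ⟨h I List.mem_cons_self, ih fun J hJ =>
      (h J (List.mem_cons_of_mem _ hJ)).mono (Set.subset_insert _ _)⟩

theorem good_range {W : Reg → ℝ} {D : Set Reg} (f : ℕ → Instr) (t : ℕ)
    (h : ∀ s, s < t → IGood W (D ∪ {r | ∃ u, u < s ∧ (f u).dst = r}) (f s)) :
    Good W ((List.range t).map f) D := by
  induction t with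
  | zero => trivial
  | succ t ih =>
    rw [List.range_succ, List.map_append]
    refine good_append (ih fun s hs => h s (by omega)) ⟨(h t (by omega)).mono ?_, trivial⟩
    rintro r (hr | ⟨u, hu, rfl⟩)
    · exact Or.inl hr
    · exact Or.inr ⟨f u, List.mem_map.mpr ⟨u, List.mem_range.mpr hu, rfl⟩, rfl⟩

open Classical in
/-- From the second block on, two algorithms which agree there have the same runs. -/
theorem run_congr (O : Set (List Bool)) (α β : List Outcome → List Instr × Test)
    (hαβ : ∀ h, h ≠ [] → α h = β h) : ∀ (k : ℕ) (h : List Outcome) (ρ : Reg → ℝ), h ≠ [] →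
    run O α k h ρ = run O β k h ρ := by
  intro k
  induction k with
  | zero => intro h ρ _; rfl
  | succ k ih =>
    intro h ρ hh
    have e : ∀ x : Outcome, h ++ [x] ≠ [] := fun x => by simp
    rw [run, run, hαβ h hh]
    simp only [ih _ _ (e _)]

open Classical in
/-- A program executed before an algorithm. -/
theorem run_before (O : Set (List Bool)) (α β : List Outcome → List Instr × Test)
    (P : List Instr) (ρ ρ₁ : Reg → ℝ) (l : List ℝ) (hP : exec P ρ = some (ρ₁, l))
    (hα : ∀ h, h ≠ [] → α h = β h) (h0 : α [] = (P ++ (β []).1, (β []).2)) (k : ℕ) :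
    run O α k [] ρ = (run O β k [] ρ₁).map fun q => (q.1, l ++ q.2.1, l.length + q.2.2) := by
  cases k with
  | zero => rfl
  | succ k =>
    rw [run, run, h0]
    simp only
    rw [TELIM.exec_append P _ ρ ρ₁ l hP]
    have e : ∀ x : Outcome, ([] : List Outcome) ++ [x] ≠ [] := fun x => by simp
    simp only [run_congr O α β hα k _ _ (e _)]
    cases h1 : exec (β []).1 ρ₁ with
    | none => simp
    | some r =>
      simp only [Option.map_some, Option.bind_some]
      cases h2 : (β []).2 with
      | answer a => simp
      | sign y =>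
        simp only [Option.map_map]
        congr 1
        funext q
        simp only [Function.comp, List.append_assoc, List.length_append, Prod.mk.injEq, true_and]
        omega
      | ask w =>
        simp only [Option.map_map]
        congr 1
        funext q
        simp only [Function.comp, List.append_assoc, List.length_append, Prod.mk.injEq, true_and]
        omega

end Pool.Agent.K7.H40.NU
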