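import Pool.Agent.K7.H40.NU.Bits
import Pool.Agent.K7.H40.NU.Ctl

set_option autoImplicit false

/-! The reduction. -/

namespace Pool.Agent.K7.H40.NU

open Pool.Agent.NPC Pool.Agent.H558R2 Pool.Agent.H622R3.SM
open Pool.Agent.R533.GU Pool.Agent.R533.NG

theorem pmono (p : Polynomial ℕ) {x y : ℕ} (h : x ≤ y) : p.eval x ≤ p.eval y := by
  rw [Polynomial.eval_eq_sum_range, Polynomial.eval_eq_sum_range]
  exact Finset.sum_le_sum fun i _ => Nat.mul_le_mul_left _ (Nat.pow_le_pow_left h i)

/-- A bound for `bigN`. -/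
def fN (k x : ℕ) : ℕ := (36 * (x + 2) ^ 2) ^ (k + 1)

/-- A bound for `bigT`. -/
def fT (k x : ℕ) : ℕ := (fN k x + fN k x) ^ k

/-- A bound for the length of the program. -/
def fL (k x : ℕ) : ℕ := 2 * (5 * (x * (x + 1)) + fT k x + 7) + (fN k x * fN k x + fN k x)

/-- A bound for `hgt`. -/
def fH (k x : ℕ) : ℕ := 10 * (fT k x + 1) + 10 + x * (x + 1) * (2 * x + 1) + 5 * x

/-- A bound for the encoding length. -/
def fI (k x : ℕ) : ℕ := (fN k x * fN k x + fN k x) * (1 + 2 * fH k x)

theorem le_fN {k m n x : ℕ} (h : m + n ≤ x) : bigN k m n ≤ fN k x := by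
  unfold bigN fN size wid
  refine Nat.pow_le_pow_left ?_ _
  have h1 : (m + 2) * (n + 2) ≤ (x + 2) * (x + 2) := Nat.mul_le_mul (by omega) (by omega)
  nlinarith

theorem le_fT {k m n x : ℕ} (h : m + n ≤ x) : bigT k m n ≤ fT k x := by
  unfold bigT fT
  exact Nat.pow_le_pow_left (Nat.add_le_add (le_fN h) (le_fN h)) _

theorem le_M {m n x : ℕ} (h : m + n ≤ x) : m * (n + 1) ≤ x * (x + 1) :=
  Nat.mul_le_mul (by omega) (by omega)

theorem le_fH {k m n x : ℕ} (h : m + n ≤ x) : hgt k m n x ≤ fH k x := by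
  unfold hgt fH
  have h1 := le_fT (k := k) h
  have h2 := Nat.mul_le_mul_right (2 * x + 1) (le_M h)
  omega

theorem le_fI {k m n x : ℕ} (h : m + n ≤ x) :
    (bigN k m n * bigN k m n + bigN k m n) * (1 + 2 * hgt k m n x) ≤ fI k x := by
  unfold fI
  have h1 := le_fN (k := k) h
  have h2 := le_fH (k := k) h
  exact Nat.mul_le_mul (Nat.add_le_add (Nat.mul_le_mul h1 h1) h1) (by omega)

theorem vals_length {k m n : ℕ} (A : Matrix (Fin m) (Fin n) ℝ) (b : Fin m → ℝ) :
    (vals k A b).length = 2 * (5 * (m * (n + 1)) + bigT k m n + 7) +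
      (bigN k m n * bigN k m n + bigN k m n) := by
  simp only [vals, part1, part2a, part2b, part3, ph1, ph2, ph3, ph5, ph7, ph8, List.length_append,
    List.length_map, List.length_range, List.length_cons, List.length_nil]
  ring

theorem vals_length_le {k m n x : ℕ} (A : Matrix (Fin m) (Fin n) ℝ) (b : Fin m → ℝ)
    (h : m + n ≤ x) : (vals k A b).length ≤ fL k x := by
  rw [vals_length]
  unfold fL
  have h1 := le_fT (k := k) h
  have h2 := le_M h
  have h3 := le_fN (k := k) h
  have h4 := Nat.mul_le_mul h3 h3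
  omega

open Polynomial in
/-- There is a polynomial with the right values. -/
theorem exists_poly (k : ℕ) (p : Polynomial ℕ) : ∃ q : Polynomial ℕ, ∀ x,
    q.eval x = p.eval (fN k x + fN k x) + fL k x + (1 + 2 * fH k x) + p.eval (fI k x) := by
  let PN : Polynomial ℕ := (C 36 * (X + 2) ^ 2) ^ (k + 1)
  let PT : Polynomial ℕ := (PN + PN) ^ k
  let PL : Polynomial ℕ := C 2 * (C 5 * (X * (X + 1)) + PT + C 7) + (PN * PN + PN)
  let PH : Polynomial ℕ := C 10 * (PT + 1) + C 10 + X * (X + 1) * (C 2 * X + 1) + C 5 * X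
  let PI : Polynomial ℕ := (PN * PN + PN) * (1 + C 2 * PH)
  have hN : ∀ x, PN.eval x = fN k x := fun x => by simp [PN, fN]
  have hT : ∀ x, PT.eval x = fT k x := fun x => by
    change eval x ((PN + PN) ^ k) = _
    rw [eval_pow, eval_add, hN]
    rfl
  have hL : ∀ x, PL.eval x = fL k x := fun x => by
    change eval x (C 2 * (C 5 * (X * (X + 1)) + PT + C 7) + (PN * PN + PN)) = _
    simp only [eval_add, eval_mul, eval_C, eval_X, eval_one, hT, hN]
    rfl
  have hH : ∀ x, PH.eval x = fH k x := fun x => by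
    change eval x (C 10 * (PT + 1) + C 10 + X * (X + 1) * (C 2 * X + 1) + C 5 * X) = _
    simp only [eval_add, eval_mul, eval_C, eval_X, eval_one, hT]
    rfl
  have hI : ∀ x, PI.eval x = fI k x := fun x => by
    change eval x ((PN * PN + PN) * (1 + C 2 * PH)) = _
    simp only [eval_add, eval_mul, eval_C, eval_one, hH, hN]
    rfl
  refine ⟨p.comp (PN + PN) + PL + (1 + C 2 * PH) + p.comp PI, fun x => ?_⟩
  simp only [eval_add, eval_mul, eval_C, eval_one, eval_comp, hN, hL, hH, hI]

theorem comb_decides (k : ℕ) (O : Set (List Bool)) (α : Alg)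
    (h : DecidesOn O (NearSystem k) α) : DecidesOn O (fun _ _ _ _ => True) (comb k α) := by
  obtain ⟨p, hp⟩ := h
  obtain ⟨q, hq⟩ := exists_poly k p
  refine ⟨q, fun m n hm hn A b _ => ?_⟩
  have hN1 : 1 ≤ bigN k m n := hm.trans (le_bigN k).1
  obtain ⟨ans, nums, steps, h1, h2, h3, h4⟩ := hp (bigN k m n) (bigN k m n) hN1 hN1
    (newA k A b) (newB k m n) (new_near A b)
  have hx : m + n ≤ m + n := le_rfl
  have hpe : p.eval (bigN k m n + bigN k m n) ≤ p.eval (fN k (m + n) + fN k (m + n)) :=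
    pmono p (Nat.add_le_add (le_fN hx) (le_fN hx))
  have hq1 := hq (m + n)
  refine ⟨ans, vals k A b ++ nums, (vals k A b).length + steps, ?_, ?_, ?_, ?_⟩
  · have h5 := TELIM.run_mono O _ _ _ _ _ h1 (q.eval (m + n)) (by omega)
    have h6 := run_before O (comb k α m n) (α (bigN k m n) (bigN k m n)) (prog k m n)
      (start A b) _ _ (exec_prog A b) (fun h hh => by
        unfold comb
        rw [if_neg hh, List.nil_append]) (by
        unfold comb
        rw [if_pos rfl]) (q.eval (m + n))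
    rw [h6, h5]
    rfl
  · rw [h2]
    exact new_iff A b
  · have h5 := vals_length_le (k := k) A b hx
    omega
  · intro A' b' hA hb v hv
    have hL := add_le_inputLength hm A' b'
    have hS := sm_ext A b hm hn A' b' hA hb
    have hq2 := hq (inputLength A' b')
    rcases List.mem_append.mp hv with hv | hv
    · obtain ⟨r, hr1, hr2⟩ := (sm_vals (k := k) A b hS v hv).bit
      have h5 := le_fH (k := k) hL
      exact ⟨r, hr1, by omega⟩
    · obtain ⟨A'', b'', e1, e2, e3⟩ := new_rat (k := k) A b hS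
      obtain ⟨r, hr1, hr2⟩ := h4 A'' b'' e1 e2 v hv
      have h5 := pmono p (e3.trans (le_fI hL))
      exact ⟨r, hr1, by omega⟩

theorem comb_free (k : ℕ) (α : Alg) (h : OracleFree α) : OracleFree (comb k α) :=
  fun m n l w => h (bigN k m n) (bigN k m n) l w

theorem decidesOn_restrict {O : Set (List Bool)}
    {C : ∀ m n : ℕ, Matrix (Fin m) (Fin n) ℝ → (Fin m → ℝ) → Prop} {α : Alg}
    (h : DecidesOn O (fun _ _ _ _ => True) α) : DecidesOn O C α := by
  obtain ⟨p, hp⟩ := h
  exact ⟨p, fun m n hm hn A b _ => hp m n hm hn A b trivial⟩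

end Pool.Agent.K7.H40.NU
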