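import Pool.Agent.K7.H40.NU.Exec
import Pool.Agent.R533.NG.Cls

set_option autoImplicit false

/-! The program which writes the system on the grid. -/

namespace Pool.Agent.K7.H40.NU

open Pool.Agent.NPC Pool.Agent.H558R2 Pool.Agent.H622R3.SM
open Pool.Agent.R533.GU Pool.Agent.R533.NG

/-! ### The data -/

/-- The exponent. -/
def bigT (k m n : ℕ) : ℕ := (bigN k m n + bigN k m n) ^ k

/-- The partial sums of `1 + Σ x ^ 2`. -/
noncomputable def ssum {m n : ℕ} (A : Matrix (Fin m) (Fin n) ℝ) (b : Fin m → ℝ) : ℕ → ℝ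
  | 0 => 1
  | t + 1 => ssum A b t + ext A b (t / (n + 1)) (t % (n + 1)) * ext A b (t / (n + 1)) (t % (n + 1))

/-- The scaling factor. -/
noncomputable def theta {m n : ℕ} (k : ℕ) (A : Matrix (Fin m) (Fin n) ℝ) (b : Fin m → ℝ) : ℝ :=
  (1 / 2) ^ (bigT k m n + 1) / ssum A b (m * (n + 1))

/-- The middle value. -/
noncomputable def mid (k m n : ℕ) : ℝ := 1 + (1 / 2) ^ (bigT k m n + 1)

/-- The new data. -/
noncomputable def newD {m n : ℕ} (k : ℕ) (A : Matrix (Fin m) (Fin n) ℝ) (b : Fin m → ℝ)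
    (R c : ℕ) : ℝ :=
  if c % 2 = 1 ∧ R - 1 < m ∧ (c - 1) / 2 < n + 1 then
    mid k m n + theta k A b * ext A b (R - 1) ((c - 1) / 2) else mid k m n

/-! ### The program -/

/-- Copies of the entries, in the registers `[4, t]`. -/
def ph1 (m n : ℕ) : List Instr := (List.range (m * (n + 1))).map fun t =>
  ⟨if t % (n + 1) < n then Op.add else Op.sub, [4, t],
    if t % (n + 1) < n then [0, t / (n + 1), t % (n + 1)] else [3],
    if t % (n + 1) < n then [3] else [1, t / (n + 1)]⟩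

/-- Squares. -/
def ph2 (m n : ℕ) : List Instr := (List.range (m * (n + 1))).map fun t =>
  ⟨Op.mul, [5, t], [4, t], [4, t]⟩

/-- Sums. -/
def ph3 (m n : ℕ) : List Instr := (List.range (m * (n + 1))).map fun t =>
  ⟨Op.add, [6, t + 1], [6, t], [5, t]⟩

/-- Powers of `1 / 2`. -/
def ph5 (T : ℕ) : List Instr := (List.range (T + 1)).map fun t =>
  ⟨Op.mul, [8, t + 1], [8, t], [7, 1]⟩

/-- Multiples. -/
def ph7 (m n : ℕ) : List Instr := (List.range (m * (n + 1))).map fun t =>
  ⟨Op.mul, [11, t], [9], [4, t]⟩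

/-- The data. -/
def ph8 (m n : ℕ) : List Instr := (List.range (m * (n + 1))).map fun t =>
  ⟨Op.add, [12, t], [10], [11, t]⟩

/-- The first part. -/
def part1 (k m n : ℕ) : List Instr :=
  ph1 m n ++ (ph2 m n ++ ([⟨Op.add, [6, 0], [2], [3]⟩] ++ (ph3 m n ++
    ([⟨Op.add, [7, 0], [2], [2]⟩] ++ ([⟨Op.div, [7, 1], [2], [7, 0]⟩] ++
    ([⟨Op.add, [8, 0], [2], [3]⟩] ++ (ph5 (bigT k m n) ++
    ([⟨Op.div, [9], [8, bigT k m n + 1], [6, m * (n + 1)]⟩] ++
    ([⟨Op.add, [10], [2], [8, bigT k m n + 1]⟩] ++ (ph7 m n ++ ph8 m n))))))))))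

/-- The register of a datum. -/
def dreg (m n R c : ℕ) : Reg :=
  if c % 2 = 1 ∧ R - 1 < m ∧ (c - 1) / 2 < n + 1 then [12, (R - 1) * (n + 1) + (c - 1) / 2]
  else [10]

/-- The code of an entry. -/
def ecode (m n I J : ℕ) : ℕ :=
  if I < size m n ∧ J < size m n then
    sel m n (posC n I).1 (posC n I).2 (posV n J).1 (posV n J).2 else 0

/-- The instruction for an entry. -/
def entI (m n I J : ℕ) : Instr :=
  ⟨if ecode m n I J = 2 then Op.sub else Op.add, [0, I, J],
    if ecode m n I J = 1 then [2] else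
      if ecode m n I J = 3 then dreg m n ((posC n I).2 / 6) ((posC n I).1 / 6) else [3],
    if ecode m n I J = 2 then [2] else [3]⟩

/-- Writing the matrix. -/
def part2a (m n N : ℕ) : List Instr := (List.range (N * N)).map fun t => entI m n (t / N) (t % N)

/-- Writing the right-hand side. -/
def part2b (n N : ℕ) : List Instr := (List.range N).map fun I =>
  ⟨Op.add, [1, I], if I = top n then [2] else [3], [3]⟩

/-- Cleaning up. -/
def part3 (k m n : ℕ) : List Instr := (part1 k m n).map fun I => ⟨Op.sub, I.dst, [3], [3]⟩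

/-- The program. -/
def prog (k m n : ℕ) : List Instr :=
  part1 k m n ++ (part2a m n (bigN k m n) ++ (part2b n (bigN k m n) ++ part3 k m n))

/-! ### The first part -/

section

variable {k m n : ℕ} (A : Matrix (Fin m) (Fin n) ℝ) (b : Fin m → ℝ)

/-- The values of the registers. -/
noncomputable def W1 (k : ℕ) {m n : ℕ} (A : Matrix (Fin m) (Fin n) ℝ) (b : Fin m → ℝ) : Reg → ℝ
  | [4, t] => ext A b (t / (n + 1)) (t % (n + 1))
  | [5, t] => ext A b (t / (n + 1)) (t % (n + 1)) * ext A b (t / (n + 1)) (t % (n + 1))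
  | [6, t] => ssum A b t
  | [7, 0] => 2
  | [7, 1] => 1 / 2
  | [8, t] => (1 / 2) ^ t
  | [9] => theta k A b
  | [10] => mid k m n
  | [11, t] => theta k A b * ext A b (t / (n + 1)) (t % (n + 1))
  | [12, t] => mid k m n + theta k A b * ext A b (t / (n + 1)) (t % (n + 1))
  | r => start A b r

/-- The registers used at the beginning. -/
def D0 : Set Reg := {r | (∃ i j, r = [0, i, j]) ∨ (∃ i, r = [1, i]) ∨ r = [2] ∨ r = [3]}

theorem W1_D0 (r : Reg) (hr : r ∈ D0) : start A b r = W1 k A b r := by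
  rcases hr with ⟨i, j, rfl⟩ | ⟨i, rfl⟩ | rfl | rfl <;> rfl

theorem one_le_ssum (t : ℕ) : 1 ≤ ssum A b t := by
  induction t with
  | zero => exact le_rfl
  | succ t ih =>
    rw [ssum]
    have := mul_self_nonneg (ext A b (t / (n + 1)) (t % (n + 1)))
    linarith

theorem part1_good : Good (W1 k A b) (part1 k m n) D0 := by
  have h2 : ([2] : Reg) ∈ D0 := Or.inr (Or.inr (Or.inl rfl))
  have h3 : ([3] : Reg) ∈ D0 := Or.inr (Or.inr (Or.inr rfl))
  have v2 : W1 k A b [2] = 1 := rfl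
  have v3 : W1 k A b [3] = 0 := rfl
  have d1 : ∀ t, t < m * (n + 1) → ∃ I ∈ ph1 m n, I.dst = [4, t] := fun t ht =>
    ⟨_, List.mem_map.mpr ⟨t, List.mem_range.mpr ht, rfl⟩, rfl⟩
  have d2 : ∀ t, t < m * (n + 1) → ∃ I ∈ ph2 m n, I.dst = [5, t] := fun t ht =>
    ⟨_, List.mem_map.mpr ⟨t, List.mem_range.mpr ht, rfl⟩, rfl⟩
  have d3 : ∀ t, t < m * (n + 1) → ∃ I ∈ ph3 m n, I.dst = [6, t + 1] := fun t ht =>
    ⟨_, List.mem_map.mpr ⟨t, List.mem_range.mpr ht, rfl⟩, rfl⟩
  have d5 : ∀ t, t < bigT k m n + 1 → ∃ I ∈ ph5 (bigT k m n), I.dst = [8, t + 1] := fun t ht =>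
    ⟨_, List.mem_map.mpr ⟨t, List.mem_range.mpr ht, rfl⟩, rfl⟩
  have d7 : ∀ t, t < m * (n + 1) → ∃ I ∈ ph7 m n, I.dst = [11, t] := fun t ht =>
    ⟨_, List.mem_map.mpr ⟨t, List.mem_range.mpr ht, rfl⟩, rfl⟩
  unfold part1
  refine good_append (good_par fun I hI => ?_) ?_
  · obtain ⟨t, ht, rfl⟩ := List.mem_map.mp hI
    have ht := List.mem_range.mp ht
    have hi : t / (n + 1) < m := Nat.div_lt_of_lt_mul (by rwa [Nat.mul_comm])
    by_cases h : t % (n + 1) < n
    · refine ⟨?_, ?_, ?_, ?_⟩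
      · simp only [if_pos h]; exact Or.inl ⟨_, _, rfl⟩
      · simp only [if_pos h]; exact h3
      · simp only [if_pos h]
        change ext A b _ _ = (if h' : t / (n + 1) < m ∧ t % (n + 1) < n then
          A ⟨_, h'.1⟩ ⟨_, h'.2⟩ else 0) + 0
        rw [add_zero, ext, dif_pos hi, dif_pos h, dif_pos ⟨hi, h⟩]
      · simp only [if_pos h]; nofun
    · have hn : t % (n + 1) = n := by have := Nat.mod_lt t (show n + 1 > 0 by omega); omega
      refine ⟨?_, ?_, ?_, ?_⟩
      · simp only [if_neg h]; exact h3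
      · simp only [if_neg h]; exact Or.inr (Or.inl ⟨_, rfl⟩)
      · simp only [if_neg h]
        change ext A b _ _ = 0 - (if h' : t / (n + 1) < m then b ⟨_, h'⟩ else 0)
        rw [ext, dif_pos hi, dif_neg h, if_pos hn, dif_pos hi, zero_sub]
      · simp only [if_neg h]; nofun
  refine good_append (good_par fun I hI => ?_) ?_
  · obtain ⟨t, ht, rfl⟩ := List.mem_map.mp hI
    exact ⟨Or.inr (d1 t (List.mem_range.mp ht)), Or.inr (d1 t (List.mem_range.mp ht)), rfl,
      nofun⟩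
  refine good_append (good_par fun I hI => ?_) ?_
  · rw [List.mem_singleton] at hI
    subst hI
    refine ⟨Or.inl (Or.inl h2), Or.inl (Or.inl h3), ?_, nofun⟩
    change (1 : ℝ) = 1 + 0
    norm_num
  refine good_append (good_range _ _ fun s hs => ?_) ?_
  · refine ⟨?_, Or.inl (Or.inl (Or.inr (d2 s hs))), rfl, nofun⟩
    cases s with
    | zero => exact Or.inl (Or.inr ⟨_, List.mem_singleton.mpr rfl, rfl⟩)
    | succ s => exact Or.inr ⟨s, by omega, rfl⟩
  refine good_append (good_par fun I hI => ?_) ?_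
  · rw [List.mem_singleton] at hI
    subst hI
    refine ⟨?_, ?_, ?_, nofun⟩
    · exact Or.inl (Or.inl (Or.inl (Or.inl h2)))
    · exact Or.inl (Or.inl (Or.inl (Or.inl h2)))
    · change (2 : ℝ) = 1 + 1
      norm_num
  refine good_append (good_par fun I hI => ?_) ?_
  · rw [List.mem_singleton] at hI
    subst hI
    refine ⟨?_, ?_, rfl, ?_⟩
    · exact Or.inl (Or.inl (Or.inl (Or.inl (Or.inl h2))))
    · exact Or.inr ⟨_, List.mem_singleton.mpr rfl, rfl⟩
    · intro _
      change (2 : ℝ) ≠ 0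
      norm_num
  refine good_append (good_par fun I hI => ?_) ?_
  · rw [List.mem_singleton] at hI
    subst hI
    refine ⟨?_, ?_, ?_, nofun⟩
    · exact Or.inl (Or.inl (Or.inl (Or.inl (Or.inl (Or.inl h2)))))
    · exact Or.inl (Or.inl (Or.inl (Or.inl (Or.inl (Or.inl h3)))))
    · change ((1 : ℝ) / 2) ^ 0 = 1 + 0
      norm_num
  refine good_append (good_range _ _ fun s hs => ?_) ?_
  · refine ⟨?_, ?_, ?_, nofun⟩
    · cases s with
      | zero => exact Or.inl (Or.inr ⟨_, List.mem_singleton.mpr rfl, rfl⟩)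
      | succ s => exact Or.inr ⟨s, by omega, rfl⟩
    · exact Or.inl (Or.inl (Or.inr ⟨_, List.mem_singleton.mpr rfl, rfl⟩))
    · change ((1 : ℝ) / 2) ^ (s + 1) = (1 / 2) ^ s * (1 / 2)
      rw [pow_succ]
  refine good_append (good_par fun I hI => ?_) ?_
  · rw [List.mem_singleton] at hI
    subst hI
    refine ⟨?_, ?_, rfl, ?_⟩
    · exact Or.inr (d5 _ (by omega))
    · refine Or.inl (Or.inl (Or.inl (Or.inl ?_)))
      rcases Nat.eq_zero_or_pos (m * (n + 1)) with h0 | h0
      · rw [h0]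
        exact Or.inl (Or.inr ⟨_, List.mem_singleton.mpr rfl, rfl⟩)
      · obtain ⟨t, ht⟩ : ∃ t, m * (n + 1) = t + 1 := ⟨m * (n + 1) - 1, by omega⟩
        have := d3 t (by omega)
        rw [← ht] at this
        exact Or.inr this
    · intro _
      change ssum A b _ ≠ 0
      have := one_le_ssum A b (m * (n + 1))
      linarith
  refine good_append (good_par fun I hI => ?_) ?_
  · rw [List.mem_singleton] at hI
    subst hI
    refine ⟨?_, ?_, rfl, nofun⟩
    · exact Or.inl (Or.inl (Or.inl (Or.inl (Or.inl (Or.inl (Or.inl (Or.inl (Or.inl h2))))))))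
    · exact Or.inl (Or.inr (d5 _ (by omega)))
  refine good_append (good_par fun I hI => ?_) (good_par fun I hI => ?_)
  · obtain ⟨t, ht, rfl⟩ := List.mem_map.mp hI
    have ht := List.mem_range.mp ht
    refine ⟨?_, ?_, rfl, nofun⟩
    · exact Or.inl (Or.inr ⟨_, List.mem_singleton.mpr rfl, rfl⟩)
    · exact Or.inl (Or.inl (Or.inl (Or.inl (Or.inl (Or.inl (Or.inl (Or.inl (Or.inl
        (Or.inr (d1 t ht))))))))))
  · obtain ⟨t, ht, rfl⟩ := List.mem_map.mp hI
    have ht := List.mem_range.mp ht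
    refine ⟨?_, Or.inr (d7 t ht), rfl, nofun⟩
    exact Or.inl (Or.inr ⟨_, List.mem_singleton.mpr rfl, rfl⟩)

end

end Pool.Agent.K7.H40.NU
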