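import Pool.Agent.K7.H40.NU.Prog

set_option autoImplicit false

/-! The new system: bounds, feasibility, and the store after the program. -/

namespace Pool.Agent.K7.H40.NU

open Pool.Agent.NPC Pool.Agent.H558R2 Pool.Agent.H622R3.SM
open Pool.Agent.R533.GU Pool.Agent.R533.NG

variable {k m n : ℕ} (A : Matrix (Fin m) (Fin n) ℝ) (b : Fin m → ℝ)

theorem ssum_eq (t : ℕ) : ssum A b t = 1 + ∑ s ∈ Finset.range t,
    ext A b (s / (n + 1)) (s % (n + 1)) * ext A b (s / (n + 1)) (s % (n + 1)) := by
  induction t with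
  | zero => simp [ssum]
  | succ t ih => rw [ssum, ih, Finset.sum_range_succ]; ring

theorem idx_div (R c : ℕ) (hc : c < n + 1) : (R * (n + 1) + c) / (n + 1) = R := by
  rw [Nat.mul_comm, Nat.mul_add_div (by omega), Nat.div_eq_of_lt hc, add_zero]

theorem idx_mod (R c : ℕ) (hc : c < n + 1) : (R * (n + 1) + c) % (n + 1) = c := by
  rw [Nat.mul_comm, Nat.mul_add_mod, Nat.mod_eq_of_lt hc]

theorem idx_lt {R c : ℕ} (hR : R < m) (hc : c < n + 1) : R * (n + 1) + c < m * (n + 1) := by
  have h1 : (R + 1) * (n + 1) ≤ m * (n + 1) := Nat.mul_le_mul_right _ hR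
  have h2 : (R + 1) * (n + 1) = R * (n + 1) + (n + 1) := by ring
  omega

theorem abs_ext_le (i j : ℕ) : |ext A b i j| ≤ ssum A b (m * (n + 1)) := by
  have h0 := one_le_ssum A b (m * (n + 1))
  by_cases hi : i < m
  · by_cases hj : j < n + 1
    · have h1 : ext A b i j * ext A b i j ≤ ∑ s ∈ Finset.range (m * (n + 1)),
          ext A b (s / (n + 1)) (s % (n + 1)) * ext A b (s / (n + 1)) (s % (n + 1)) := by
        have h2 := Finset.single_le_sum (s := Finset.range (m * (n + 1)))
          (f := fun s => ext A b (s / (n + 1)) (s % (n + 1)) *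
            ext A b (s / (n + 1)) (s % (n + 1))) (fun s _ => mul_self_nonneg _)
          (Finset.mem_range.mpr (idx_lt hi hj))
        simp only [idx_div _ _ hj, idx_mod _ _ hj] at h2
        exact h2
      rw [ssum_eq]
      refine le_trans ?_ (add_le_add_right h1 1)
      rcases le_total 0 (ext A b i j) with h | h
      · rw [abs_of_nonneg h]; nlinarith [sq_nonneg (ext A b i j - 1)]
      · rw [abs_of_nonpos h]; nlinarith [sq_nonneg (ext A b i j + 1)]
    · have : ext A b i j = 0 := by
        unfold ext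
        rw [dif_pos hi, dif_neg (by omega), if_neg (by omega)]
      rw [this, abs_zero]
      linarith
  · have : ext A b i j = 0 := by
      unfold ext
      rw [dif_neg hi]
    rw [this, abs_zero]
    linarith

theorem theta_pos : 0 < theta k A b := by
  have h0 := one_le_ssum A b (m * (n + 1))
  unfold theta
  positivity

theorem abs_theta_le (i j : ℕ) : |theta k A b * ext A b i j| ≤ (1 / 2) ^ (bigT k m n + 1) := by
  have h0 := one_le_ssum A b (m * (n + 1))
  have h1 := abs_ext_le A b i j
  rw [abs_mul, abs_of_pos (theta_pos A b)]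
  unfold theta
  rw [div_mul_eq_mul_div, div_le_iff₀ (by linarith)]
  exact mul_le_mul_of_nonneg_left h1 (by positivity)

theorem newD_bounds (R c : ℕ) :
    1 ≤ newD k A b R c ∧ newD k A b R c ≤ 1 + 1 / 2 ^ ((bigN k m n + bigN k m n) ^ k) := by
  have e : (1 : ℝ) / 2 ^ ((bigN k m n + bigN k m n) ^ k) = 2 * (1 / 2) ^ (bigT k m n + 1) := by
    rw [show (bigN k m n + bigN k m n) ^ k = bigT k m n from rfl, pow_succ, one_div_pow]
    ring
  have hp : (0 : ℝ) < (1 / 2) ^ (bigT k m n + 1) := by positivity
  rw [e]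
  unfold newD mid
  split_ifs with h
  · have h1 := abs_le.mp (abs_theta_le (k := k) A b (R - 1) ((c - 1) / 2))
    constructor <;> linarith [h1.1, h1.2]
  · constructor <;> linarith

theorem newD_sub (i j : ℕ) (hi : i < m) (hj : j < n + 1) :
    newD k A b (i + 1) (2 * j + 1) - newD k A b (i + 1) (2 * j + 2) =
      theta k A b * ext A b i j := by
  unfold newD
  rw [if_pos ⟨by omega, by omega, by omega⟩, if_neg (by omega),
    show (2 * j + 1 - 1) / 2 = j by omega, Nat.add_sub_cancel]
  ring

theorem newD_iff :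
    (∃ z : Fin (size m n) → ℝ, grhs ℝ m n ≤ (gmat (newD k A b) m n).mulVec z) ↔
      ∃ x : Fin n → ℝ, b ≤ A.mulVec x := by
  have key : ∀ (i : ℕ) (h : ℕ → ℝ), i < m → ((0 ≤ ∑ j ∈ Finset.range (n + 1),
      (newD k A b (i + 1) (2 * j + 1) - newD k A b (i + 1) (2 * j + 2)) * h j) ↔
      0 ≤ ∑ j ∈ Finset.range (n + 1), ext A b i j * h j) := by
    intro i h hi
    have e : ∑ j ∈ Finset.range (n + 1),
        (newD k A b (i + 1) (2 * j + 1) - newD k A b (i + 1) (2 * j + 2)) * h j =
        theta k A b * ∑ j ∈ Finset.range (n + 1), ext A b i j * h j := by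
      rw [Finset.mul_sum]
      exact Finset.sum_congr rfl fun j hj => by
        rw [newD_sub A b i j hi (Finset.mem_range.mp hj)]; ring
    rw [e]
    exact mul_nonneg_iff_of_pos_left (theta_pos A b)
  constructor
  · rintro ⟨z, hz⟩
    obtain ⟨h, hn, hs⟩ := back_gen (newD k A b)
      (fun R c => zero_le_one.trans (newD_bounds A b R c).1) z hz
    refine ⟨fun j => h j / h n, fun i => ?_⟩
    have h1 := (key i h i.2).mp (hs i i.2)
    rw [ext_sum] at h1
    have hp : 0 < h n := by linarith
    have h2 : A.mulVec (fun j : Fin n => h j / h n) i = (∑ j : Fin n, A i j * h j) / h n := by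
      unfold Matrix.mulVec dotProduct
      rw [Finset.sum_div]
      exact Finset.sum_congr rfl fun j _ => by ring
    rw [h2, le_div_iff₀ hp]
    linarith
  · rintro ⟨x, hx⟩
    refine forth_gen (newD k A b) (fun j => if h : j < n then x ⟨j, h⟩ else 1) ?_ ?_
    · simp
    · intro i hi
      rw [key i _ hi]
      have h1 := ext_sum A b ⟨i, hi⟩ (fun j => if h : j < n then x ⟨j, h⟩ else 1)
      have h2 := hx ⟨i, hi⟩
      simp only at h1
      rw [h1]
      simp only [Fin.is_lt, dite_true, Fin.eta, lt_irrefl, dite_false, mul_one]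
      unfold Matrix.mulVec dotProduct at h2
      linarith

/-- The new matrix. -/
noncomputable def newA (k : ℕ) {m n : ℕ} (A : Matrix (Fin m) (Fin n) ℝ) (b : Fin m → ℝ) :
    Matrix (Fin (bigN k m n)) (Fin (bigN k m n)) ℝ :=
  padM (bigN k m n) (gmat (newD k A b) m n)

/-- The new right-hand side. -/
noncomputable def newB (k m n : ℕ) : Fin (bigN k m n) → ℝ := padV (bigN k m n) (grhs ℝ m n)

theorem new_near : NearSystem k (bigN k m n) (bigN k m n) (newA k A b) (newB k m n) :=
  near_system k (newD k A b) (newD_bounds A b)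

theorem new_iff : (∃ z, newB k m n ≤ (newA k A b).mulVec z) ↔
    ∃ x : Fin n → ℝ, b ≤ A.mulVec x := by
  unfold newB newA
  rw [pad_iff (size_le_bigN k), newD_iff]

/-! ### The store after the program -/

/-- The values after the second part. -/
noncomputable def W2 (k : ℕ) {m n : ℕ} (A : Matrix (Fin m) (Fin n) ℝ) (b : Fin m → ℝ) :
    Reg → ℝ
  | [0, I, J] => start (newA k A b) (newB k m n) [0, I, J]
  | [1, I] => start (newA k A b) (newB k m n) [1, I]
  | [2] => 1
  | [3] => 0
  | [10] => mid k m n
  | [12, t] => mid k m n + theta k A b * ext A b (t / (n + 1)) (t % (n + 1))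
  | _ => 0

/-- The registers used in the second part. -/
def D2 (m n : ℕ) : Set Reg :=
  {r | r = [2] ∨ r = [3] ∨ r = [10] ∨ ∃ t, t < m * (n + 1) ∧ r = [12, t]}

theorem dreg_mem (R c : ℕ) : dreg m n R c ∈ D2 m n := by
  unfold dreg
  split_ifs with h
  · exact Or.inr (Or.inr (Or.inr ⟨_, idx_lt h.2.1 h.2.2, rfl⟩))
  · exact Or.inr (Or.inr (Or.inl rfl))

theorem dreg_val (R c : ℕ) : W2 k A b (dreg m n R c) = newD k A b R c := by
  unfold dreg newD
  split_ifs with h
  · change mid k m n + theta k A b * ext A b (((R - 1) * (n + 1) + (c - 1) / 2) / (n + 1))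
      (((R - 1) * (n + 1) + (c - 1) / 2) % (n + 1)) = _
    rw [idx_div _ _ h.2.2, idx_mod _ _ h.2.2]
  · rfl

theorem newA_eq (I J : Fin (bigN k m n)) : newA k A b I J =
    R533.GU.val (newD k A b ((posC n I).2 / 6) ((posC n I).1 / 6)) (ecode m n I J) := by
  unfold newA padM ecode
  split_ifs with h
  · rfl
  · unfold R533.GU.val
    norm_num

theorem entI_good (I J : ℕ) (hI : I < bigN k m n) (hJ : J < bigN k m n) :
    IGood (W2 k A b) (D2 m n) (entI m n I J) := by
  have h2 : ([2] : Reg) ∈ D2 m n := Or.inl rfl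
  have h3 : ([3] : Reg) ∈ D2 m n := Or.inr (Or.inl rfl)
  have v2 : W2 k A b [2] = 1 := rfl
  have v3 : W2 k A b [3] = 0 := rfl
  have e : W2 k A b [0, I, J] =
      R533.GU.val (newD k A b ((posC n I).2 / 6) ((posC n I).1 / 6)) (ecode m n I J) := by
    rw [← newA_eq A b ⟨I, hI⟩ ⟨J, hJ⟩]
    change (if h : I < bigN k m n ∧ J < bigN k m n then _ else _) = _
    rw [dif_pos ⟨hI, hJ⟩]
  unfold entI
  by_cases c1 : ecode m n I J = 1
  · refine ⟨?_, ?_, ?_, ?_⟩
    · simp only [c1, if_true]; exact h2
    · simp only [c1]; exact h3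
    · rw [c1] at e
      simp only [c1, e]
      change (1 : ℝ) = 1 + 0
      norm_num
    · simp only [c1]; nofun
  by_cases c2 : ecode m n I J = 2
  · refine ⟨?_, ?_, ?_, ?_⟩
    · simp only [c2]; exact h3
    · simp only [c2]; exact h2
    · rw [c2] at e
      simp only [c2, e]
      change (-1 : ℝ) = 0 - 1
      norm_num
    · simp only [c2]; nofun
  by_cases c3 : ecode m n I J = 3
  · refine ⟨?_, ?_, ?_, ?_⟩
    · simp only [c3]; exact dreg_mem _ _
    · simp only [c3]; exact h3
    · rw [c3] at e
      simp only [c3, e]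
      change newD k A b _ _ = W2 k A b (dreg m n _ _) + 0
      rw [dreg_val, add_zero]
    · simp only [c3]; nofun
  · refine ⟨?_, ?_, ?_, ?_⟩
    · simp only [c1, c3, if_false]; exact h3
    · simp only [c2, if_false]; exact h3
    · simp only [c1, c2, c3, if_false, e]
      change R533.GU.val _ _ = (0 : ℝ) + 0
      unfold R533.GU.val
      rw [if_neg c1, if_neg c2, if_neg c3, add_zero]
    · simp only [c2, if_false]; nofun

theorem newB_eq (I : Fin (bigN k m n)) : newB k m n I = if (I : ℕ) = top n then 1 else 0 := by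
  unfold newB padV grhs
  split_ifs with h1 h2 h2
  · rfl
  · rfl
  · exfalso
    apply h1
    rw [h2]
    exact top_lt
  · rfl

theorem part2_good : Good (W2 k A b) (part2a m n (bigN k m n) ++ part2b n (bigN k m n))
    (D2 m n) := by
  have h2 : ([2] : Reg) ∈ D2 m n := Or.inl rfl
  have h3 : ([3] : Reg) ∈ D2 m n := Or.inr (Or.inl rfl)
  refine good_par fun I hI => ?_
  rcases List.mem_append.mp hI with hI | hI
  · obtain ⟨t, ht, rfl⟩ := List.mem_map.mp hI
    have ht := List.mem_range.mp ht
    have hN : 0 < bigN k m n := by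
      rcases Nat.eq_zero_or_pos (bigN k m n) with h | h
      · rw [h] at ht; omega
      · exact h
    exact entI_good A b _ _ (Nat.div_lt_of_lt_mul ht) (Nat.mod_lt _ hN)
  · obtain ⟨t, ht, rfl⟩ := List.mem_map.mp hI
    have ht := List.mem_range.mp ht
    refine ⟨?_, h3, ?_, nofun⟩
    · by_cases h : t = top n
      · simp only [if_pos h]; exact h2
      · simp only [if_neg h]; exact h3
    · have e : W2 k A b [1, t] = if t = top n then 1 else 0 := by
        rw [← newB_eq (k := k) (m := m) ⟨t, ht⟩]
        change (if h : t < bigN k m n then _ else _) = _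
        rw [dif_pos ht]
      simp only [e]
      by_cases h : t = top n
      · simp only [if_pos h]
        change (1 : ℝ) = 1 + 0
        norm_num
      · simp only [if_neg h]
        change (0 : ℝ) = 0 + 0
        norm_num

/-- The targets of the first part. -/
theorem part1_dst (r : Reg) (hr : r ∈ (part1 k m n).map Instr.dst) :
    ∃ a l, r = a :: l ∧ 4 ≤ a := by
  obtain ⟨I, hI, rfl⟩ := List.mem_map.mp hr
  simp only [part1, ph1, ph2, ph3, ph5, ph7, ph8, List.mem_append, List.mem_map,
    List.mem_singleton] at hI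
  rcases hI with ⟨t, -, rfl⟩ | ⟨t, -, rfl⟩ | rfl | ⟨t, -, rfl⟩ | rfl | rfl | rfl | ⟨t, -, rfl⟩ |
    rfl | rfl | ⟨t, -, rfl⟩ | ⟨t, -, rfl⟩ <;> exact ⟨_, _, rfl, by omega⟩

/-- The targets of the second part. -/
theorem part2_dst (r : Reg) :
    r ∈ (part2a m n (bigN k m n) ++ part2b n (bigN k m n)).map Instr.dst ↔
      (∃ I J, I < bigN k m n ∧ J < bigN k m n ∧ r = [0, I, J]) ∨
      ∃ I, I < bigN k m n ∧ r = [1, I] := by
  rw [List.map_append, List.mem_append]
  refine or_congr ?_ ?_
  · constructor
    · intro h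
      obtain ⟨I, hI, rfl⟩ := List.mem_map.mp h
      obtain ⟨t, ht, rfl⟩ := List.mem_map.mp hI
      have ht := List.mem_range.mp ht
      have hN : 0 < bigN k m n := by
        rcases Nat.eq_zero_or_pos (bigN k m n) with h | h
        · rw [h] at ht; omega
        · exact h
      exact ⟨_, _, Nat.div_lt_of_lt_mul ht, Nat.mod_lt _ hN, rfl⟩
    · rintro ⟨I, J, hI, hJ, rfl⟩
      refine List.mem_map.mpr ⟨entI m n I J, List.mem_map.mpr ⟨bigN k m n * I + J, ?_, ?_⟩, rfl⟩
      · rw [List.mem_range]
        have h1 : bigN k m n * (I + 1) ≤ bigN k m n * bigN k m n := Nat.mul_le_mul_left _ hI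
        rw [Nat.mul_succ] at h1
        omega
      · rw [Nat.mul_add_div (by omega), Nat.div_eq_of_lt hJ, add_zero, Nat.mul_add_mod,
          Nat.mod_eq_of_lt hJ]
  · constructor
    · intro h
      obtain ⟨I, hI, rfl⟩ := List.mem_map.mp h
      obtain ⟨t, ht, rfl⟩ := List.mem_map.mp hI
      exact ⟨t, List.mem_range.mp ht, rfl⟩
    · rintro ⟨I, hI, rfl⟩
      exact List.mem_map.mpr ⟨_, List.mem_map.mpr ⟨I, List.mem_range.mpr hI, rfl⟩, rfl⟩

/-- The values computed. -/
noncomputable def vals (k : ℕ) {m n : ℕ} (A : Matrix (Fin m) (Fin n) ℝ) (b : Fin m → ℝ) :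
    List ℝ :=
  ((part1 k m n).map fun I => W1 k A b I.dst) ++
    (((part2a m n (bigN k m n) ++ part2b n (bigN k m n)).map fun I => W2 k A b I.dst) ++
    ((part3 k m n).map fun _ => (0 : ℝ)))

theorem le_bigN (k : ℕ) : m ≤ bigN k m n ∧ n ≤ bigN k m n := by
  have h := size_le_bigN (m := m) (n := n) k
  have h1 : m ≤ size m n := by
    unfold size wid
    nlinarith [Nat.zero_le (m * n)]
  have h2 : n ≤ size m n := by
    unfold size wid
    nlinarith [Nat.zero_le (m * n)]
  omega

theorem part12 : exec (part1 k m n ++ (part2a m n (bigN k m n) ++ part2b n (bigN k m n)))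
    (start A b) = some (fun r =>
      if r ∈ (part2a m n (bigN k m n) ++ part2b n (bigN k m n)).map Instr.dst then W2 k A b r
      else if r ∈ (part1 k m n).map Instr.dst then W1 k A b r else start A b r,
      ((part1 k m n).map fun I => W1 k A b I.dst) ++
        (part2a m n (bigN k m n) ++ part2b n (bigN k m n)).map fun I => W2 k A b I.dst) := by
  have h1 := exec_good (W1 k A b) (part1 k m n) D0 (start A b) (W1_D0 A b) (part1_good A b)
  rw [TELIM.exec_append _ _ _ _ _ h1]
  rw [exec_good (W2 k A b) _ (D2 m n) _ ?_ (part2_good A b)]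
  · rfl
  · rintro r (rfl | rfl | rfl | ⟨t, ht, rfl⟩)
    · rw [if_neg]
      · rfl
      · intro h
        obtain ⟨a, l, h1, h2⟩ := part1_dst _ h
        simp only [List.cons.injEq] at h1
        omega
    · rw [if_neg]
      · rfl
      · intro h
        obtain ⟨a, l, h1, h2⟩ := part1_dst _ h
        simp only [List.cons.injEq] at h1
        omega
    · rw [if_pos]
      · rfl
      · refine List.mem_map.mpr ⟨⟨Op.add, [10], [2], [8, bigT k m n + 1]⟩, ?_, rfl⟩
        simp [part1]
    · rw [if_pos]
      · rfl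
      · refine List.mem_map.mpr ⟨⟨Op.add, [12, t], [10], [11, t]⟩, ?_, rfl⟩
        simp only [part1, List.mem_append]
        iterate 11 refine Or.inr ?_
        exact List.mem_map.mpr ⟨t, List.mem_range.mpr ht, rfl⟩

/-- **The program writes the new system.** -/
theorem exec_prog : exec (prog k m n) (start A b) =
    some (start (newA k A b) (newB k m n), vals k A b) := by
  have e : prog k m n = (part1 k m n ++ (part2a m n (bigN k m n) ++ part2b n (bigN k m n))) ++
      part3 k m n := by
    unfold prog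
    simp only [List.append_assoc]
  rw [e, TELIM.exec_append _ _ _ _ _ (part12 A b)]
  have h3 : Good (fun _ => (0 : ℝ)) (part3 k m n) {[3]} := by
    refine good_par fun I hI => ?_
    obtain ⟨J, -, rfl⟩ := List.mem_map.mp hI
    refine ⟨rfl, rfl, ?_, nofun⟩
    change (0 : ℝ) = 0 - 0
    norm_num
  have nm : ∀ r : Reg, (∀ a l, r = a :: l → a < 4) → r ∉ (part1 k m n).map Instr.dst := by
    intro r hr h
    obtain ⟨a, l, h1, h2⟩ := part1_dst _ h
    have := hr a l h1
    omega
  rw [exec_good _ _ {[3]} _ ?_ h3]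
  · simp only [Option.map_some, Option.some.injEq, Prod.mk.injEq]
    refine ⟨?_, ?_⟩
    · have ed : (part3 k m n).map Instr.dst = (part1 k m n).map Instr.dst := by
        unfold part3
        rw [List.map_map]
        rfl
      rw [ed]
      have hm := (le_bigN (m := m) (n := n) k).1
      have hn := (le_bigN (m := m) (n := n) k).2
      funext r
      by_cases h1 : r ∈ (part1 k m n).map Instr.dst
      · rw [if_pos h1]
        obtain ⟨a, l, rfl, h2⟩ := part1_dst _ h1
        obtain ⟨a, rfl⟩ : ∃ a', a = a' + 4 := ⟨a - 4, by omega⟩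
        rfl
      · rw [if_neg h1]
        simp only [if_neg h1]
        by_cases h2 : r ∈ (part2a m n (bigN k m n) ++ part2b n (bigN k m n)).map Instr.dst
        · rw [if_pos h2]
          rcases (part2_dst r).mp h2 with ⟨I, J, -, -, rfl⟩ | ⟨I, -, rfl⟩ <;> rfl
        · rw [if_neg h2]
          rw [part2_dst, not_or] at h2
          obtain ⟨h3, h4⟩ := h2
          unfold start
          split
          · rename_i i j
            rw [dif_neg, dif_neg]
            · exact fun h => h3 ⟨i, j, h.1, h.2, rfl⟩
            · exact fun h => h3 ⟨i, j, by omega, by omega, rfl⟩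
          · rename_i i
            rw [dif_neg, dif_neg]
            · exact fun h => h4 ⟨i, h, rfl⟩
            · exact fun h => h4 ⟨i, by omega, rfl⟩
          · rfl
          · rfl
    · unfold vals
      simp only [List.append_assoc]
  · rintro r rfl
    rw [if_neg, if_neg]
    · rfl
    · refine nm _ fun a l h => ?_
      simp only [List.cons.injEq] at h
      omega
    · rw [part2_dst]
      rintro (⟨I, J, -, -, h⟩ | ⟨I, -, h⟩)
      · simp at h
      · simp at h

end Pool.Agent.K7.H40.NU
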